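import Pool.Agent.X177.TS.Build

set_option autoImplicit false

/-!
# Tameness with respect to minimal Jacobian syzygies (problem `MP_0a8f3f_ag`)

The answer to Q1 is no: every reduced hypersurface is tame with respect to some tuple of elements of
a minimal set of generators of its module of Jacobian syzygies.  The ambient projective space is
`P ^ (r + 1)`, so that `n = r + 1` and the tuples have length `n - 1 = r`.
-/

namespace Pool.Agent.Results.MP_0a8f3f_ag.AlwaysTame

open MvPolynomial

/-- The polynomial ring in the variables `x_0, ..., x_(r + 1)`. -/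
abbrev PolyRing (r : ℕ) := MvPolynomial (Fin (r + 2)) ℂ

/-- The module `D_0(f)` of Jacobian syzygies: the vectors `a` with `∑ a_j ∂f/∂x_j = 0`. -/
noncomputable def jacobianSyzygies {r : ℕ} (f : PolyRing r) :
    Submodule (PolyRing r) (Fin (r + 2) → PolyRing r) where
  carrier := {a | ∑ j, a j * pderiv j f = 0}
  add_mem' := by
    intro a b ha hb
    show ∑ j, (a + b) j * pderiv j f = 0
    simp only [Pi.add_apply, add_mul, Finset.sum_add_distrib]
    rw [show ∑ j, a j * pderiv j f = 0 from ha, show ∑ j, b j * pderiv j f = 0 from hb, add_zero]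
  zero_mem' := by
    show ∑ j, (0 : Fin (r + 2) → PolyRing r) j * pderiv j f = 0
    simp
  smul_mem' := by
    intro c a ha
    show ∑ j, (c • a) j * pderiv j f = 0
    simp only [Pi.smul_apply, smul_eq_mul, mul_assoc]
    rw [← Finset.mul_sum, show ∑ j, a j * pderiv j f = 0 from ha, mul_zero]

/-- `ρ` is a family of `m` homogeneous syzygies which generates `D_0(f)`. -/
def IsHomogeneousGenerating {r : ℕ} (f : PolyRing r) (m : ℕ)
    (ρ : Fin m → Fin (r + 2) → PolyRing r) : Prop :=
  (∀ i, ∃ e, ∀ j, (ρ i j).IsHomogeneous e) ∧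
    Submodule.span (PolyRing r) (Set.range ρ) = jacobianSyzygies f

/-- `ρ` is a minimal set of generators of `D_0(f)`: homogeneous syzygies which generate `D_0(f)`,
with `m` minimal. -/
def IsMinimalGenerating {r : ℕ} (f : PolyRing r) (m : ℕ)
    (ρ : Fin m → Fin (r + 2) → PolyRing r) : Prop :=
  IsHomogeneousGenerating f m ρ ∧ ∀ m' ρ', IsHomogeneousGenerating f m' ρ' → m ≤ m'

/-- The matrix `M(ρ̂, ρ)` with rows `(x_0, ..., x_(r + 1))`, the `r` vectors `ρ̂`, and `ρ`. -/
noncomputable def matrixM {r : ℕ} (ρhat : Fin r → Fin (r + 2) → PolyRing r)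
    (ρ : Fin (r + 2) → PolyRing r) : Matrix (Fin (r + 2)) (Fin (r + 2)) (PolyRing r) :=
  Matrix.of (Fin.cons (fun j => X j) (Fin.snoc ρhat ρ : Fin (r + 1) → Fin (r + 2) → PolyRing r))

/-- Tameness with respect to `ρ̂`: the map `u (a) = ∑ a_j ρ̂_j` is injective, and its image is the
kernel of `v (ρ) = det M(ρ̂, ρ) / f` on `D_0(f)`, that is, the set of the `ρ` in `D_0(f)` with
`det M(ρ̂, ρ) = 0`. -/
def IsTame {r : ℕ} (f : PolyRing r) (ρhat : Fin r → Fin (r + 2) → PolyRing r) : Prop :=
  LinearIndependent (PolyRing r) ρhat ∧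
    ∀ ρ ∈ jacobianSyzygies f, (matrixM ρhat ρ).det = 0 ↔
      ρ ∈ Submodule.span (PolyRing r) (Set.range ρhat)

end Pool.Agent.Results.MP_0a8f3f_ag.AlwaysTame

namespace Pool.Agent.X177.TS

open MvPolynomial Pool.Agent.Results.MP_0a8f3f_ag.AlwaysTame

theorem tame_of_indep {r d : ℕ} {f : PP r} (hd : 1 ≤ d) (hf : f.IsHomogeneous d) (hf0 : f ≠ 0)
    {w : Fin r → Fin (r + 2) → PP r} (hws : ∀ t, w t ∈ jacobianSyzygies f)
    (hwπ : ∀ π : PP r, Prime π → Indep (Ideal.span {π}) w) (hw0 : Indep ⊥ w) : IsTame f w := by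
  have hlin : ∀ a : Fin r → PP r, (∀ j, ∑ i, a i * w i j = 0) → ∀ i, a i = 0 := by
    intro a ha i
    exact Ideal.mem_bot.1 (hw0 a (fun j => Ideal.mem_bot.2 (ha j)) i)
  refine ⟨?_, fun ρ hρ => ⟨fun hdet => ?_, fun hmem => ?_⟩⟩
  · rw [Fintype.linearIndependent_iff]
    intro a ha
    refine hlin a fun j => ?_
    have h1 := congrFun ha j
    rw [Finset.sum_apply] at h1
    exact h1
  · obtain ⟨a, ha0, ha⟩ := Matrix.exists_vecMul_eq_zero_iff.2 hdet
    have h1 : ∀ j, a 0 * X j + (∑ t : Fin r, a t.castSucc.succ * w t j +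
        a (Fin.last r).succ * ρ j) = 0 := by
      intro j
      have h2 := congrFun ha j
      rw [Matrix.vecMul, dotProduct, Fin.sum_univ_succ, Fin.sum_univ_castSucc] at h2
      simpa [matrixM] using h2
    have hsyz : ∀ x ∈ jacobianSyzygies f, ∑ j, x j * pderiv j f = 0 := fun x hx => hx
    have h2 : a 0 = 0 := by
      have h3 : ∑ j, (a 0 * X j + (∑ t : Fin r, a t.castSucc.succ * w t j +
          a (Fin.last r).succ * ρ j)) * pderiv j f = 0 := by
        simp only [h1, zero_mul, Finset.sum_const_zero]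
      have h4 : ∑ j, (a 0 * X j + (∑ t : Fin r, a t.castSucc.succ * w t j +
          a (Fin.last r).succ * ρ j)) * pderiv j f =
          a 0 * ∑ j, X j * pderiv j f + (∑ t : Fin r, a t.castSucc.succ *
            ∑ j, w t j * pderiv j f + a (Fin.last r).succ * ∑ j, ρ j * pderiv j f) := by
        simp only [add_mul, Finset.sum_add_distrib, Finset.mul_sum, Finset.sum_mul]
        rw [Finset.sum_comm (f := fun j t => a (Fin.castSucc t).succ * w t j * pderiv j f)]
        simp only [mul_assoc]
      rw [h4, hf.sum_X_mul_pderiv, hsyz ρ hρ] at h3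
      simp only [fun t => hsyz (w t) (hws t), mul_zero, Finset.sum_const_zero, add_zero] at h3
      rcases mul_eq_zero.1 h3 with h5 | h5
      · exact h5
      · exfalso
        rcases smul_eq_zero.1 h5 with h6 | h6
        · omega
        · exact hf0 h6
    have h3 : a (Fin.last r).succ ≠ 0 := by
      intro h4
      have h5 : ∀ j, ∑ t : Fin r, a t.castSucc.succ * w t j = 0 := by
        intro j
        have h6 := h1 j
        rw [h2, h4] at h6
        simpa using h6
      have h6 := hlin (fun t => a t.castSucc.succ) h5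
      apply ha0
      funext i
      refine Fin.cases h2 (fun i => ?_) i
      refine Fin.lastCases h4 (fun i => ?_) i
      exact h6 i
    obtain ⟨a', ha'⟩ := saturated hwπ (a (Fin.last r).succ) h3 ρ (fun t => -a t.castSucc.succ)
      (fun j => by
        have h6 := h1 j
        rw [h2, zero_mul, zero_add] at h6
        simp only [neg_mul, Finset.sum_neg_distrib]
        linear_combination h6)
    rw [Submodule.mem_span_range_iff_exists_fun]
    refine ⟨a', ?_⟩
    funext j
    rw [Finset.sum_apply]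
    exact (ha' j).symm
  · rw [Submodule.mem_span_range_iff_exists_fun] at hmem
    obtain ⟨c, hc⟩ := hmem
    rw [← Matrix.exists_vecMul_eq_zero_iff]
    refine ⟨Fin.cons 0 (Fin.snoc (fun t => c t) (-1) : Fin (r + 1) → PP r), ?_, ?_⟩
    · intro h
      have h1 := congrFun h (Fin.last r).succ
      simp at h1
    · funext j
      rw [Matrix.vecMul, dotProduct, Fin.sum_univ_succ, Fin.sum_univ_castSucc]
      have h1 := congrFun hc j
      rw [Finset.sum_apply] at h1
      simp only [Pi.smul_apply, smul_eq_mul] at h1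
      simp [matrixM, h1]

theorem sorted_gen {r : ℕ} {f : PP r} {m : ℕ} {ρ : Fin m → Fin (r + 2) → PP r}
    (h : IsHomogeneousGenerating f m ρ) : ∃ (ρ' : Fin m → Fin (r + 2) → PP r) (dd : Fin m → ℕ),
      Monotone dd ∧ (∀ i j, (ρ' i j).IsHomogeneous (dd i)) ∧
      Submodule.span (PP r) (Set.range ρ') = jacobianSyzygies f := by
  obtain ⟨h1, h2⟩ := h
  choose e he using h1
  refine ⟨ρ ∘ Tuple.sort e, e ∘ Tuple.sort e, Tuple.monotone_sort e, fun i j => he _ j, ?_⟩
  rw [(Tuple.sort e).surjective.range_comp]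
  exact h2

end Pool.Agent.X177.TS

namespace Pool.Agent.Results.MP_0a8f3f_ag.AlwaysTame

open MvPolynomial Pool.Agent.X177.TS

/-- Every reduced hypersurface `f = 0` of degree `d ≥ 1` in `P ^ (r + 1)`, `r ≥ 1`, is tame with
respect to `r` elements of some minimal set of generators of `D_0(f)`. -/
theorem result (r : ℕ) (f : PolyRing r) (d : ℕ) (hd : 1 ≤ d) (hf : f.IsHomogeneous d) (hf0 : f ≠ 0)
    (hred : Squarefree f) :
    ∃ (m : ℕ) (ρ : Fin m → Fin (r + 2) → PolyRing r), IsMinimalGenerating f m ρ ∧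
      ∃ e : Fin r → Fin m, Function.Injective e ∧ IsTame f (ρ ∘ e) := by
  classical
  have hex : ∃ m, ∃ ρ : Fin m → Fin (r + 2) → PolyRing r, IsHomogeneousGenerating f m ρ := by
    obtain ⟨m, ρ, h1, h2⟩ := exists_homGen hf
    exact ⟨m, ρ, h1, h2⟩
  obtain ⟨ρ0, hρ0⟩ := Nat.find_spec hex
  have hmin : ∀ m' ρ', IsHomogeneousGenerating f m' ρ' → Nat.find hex ≤ m' :=
    fun m' ρ' h => Nat.find_min' hex ⟨ρ', h⟩
  generalize Nat.find hex = m at ρ0 hρ0 hmin
  obtain ⟨ρ, dd, hmono, hhom, hspan⟩ := sorted_gen hρ0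
  have hi0 := exists_pderiv_ne_zero hd hf hf0
  have hiπ : ∀ π : PolyRing r, Prime π → ∃ i, ¬ π ∣ pderiv i f :=
    fun π hπ => exists_pderiv_not_dvd hd hf hred hπ
  have hspan' : Submodule.span (PP r) (Set.range ρ) = syz f := hspan
  have hm : r + 1 ≤ m := by
    have hp : (⊥ : Ideal (PP r)).IsPrime := Ideal.isPrime_bot
    obtain ⟨i, hi⟩ := hi0
    have h1 := hdim hspan' ⊥ (i := i) (fun h => hi (Ideal.mem_bot.1 h))
    have h2 := finrank_range_le_card (R := FractionRing (PP r ⧸ (⊥ : Ideal (PP r))))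
      (b := fun (i : Fin m) j => red (⊥ : Ideal (PP r)) (ρ i j))
    rw [Fintype.card_fin] at h2
    exact h1.trans h2
  obtain ⟨w, hw, hwπ, hw0⟩ := build hi0 hiπ hspan' dd (by omega) r le_rfl
  have hρmem : ∀ j, ρ j ∈ jacobianSyzygies f := fun j => by
    rw [← hspan]
    exact Submodule.subset_span ⟨j, rfl⟩
  have hNice : ∀ (j : Fin m) x, Nice ρ dd j x →
      x ∈ jacobianSyzygies f ∧ ∀ t, (x t).IsHomogeneous (dd j) := by
    rintro j x ⟨h, h1, h2, _, h4⟩
    constructor
    · have h5 : x = ∑ l, h l • ρ l := by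
        funext t
        rw [Finset.sum_apply]
        exact h4 t
      rw [h5]
      exact Submodule.sum_mem _ fun l _ => Submodule.smul_mem _ _ (hρmem l)
    · intro t
      rw [h4]
      refine IsHomogeneous.sum _ _ _ fun l _ => ?_
      rcases le_or_gt l j with h5 | h5
      · have h6 := (h2 l).mul (hhom l t)
        rwa [Nat.sub_add_cancel (hmono h5)] at h6
      · rw [h1 l h5, zero_mul]
        exact isHomogeneous_zero _ _ _
  -- the new family
  let e : Fin r → Fin m := fun t => ⟨m - r + t, by omega⟩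
  let ρ' : Fin m → Fin (r + 2) → PolyRing r := fun j =>
    if h : m - r ≤ j then w ⟨(j : ℕ) - (m - r), by omega⟩ else ρ j
  have hρ'1 : ∀ t, ρ' (e t) = w t := by
    intro t
    show (if h : m - r ≤ m - r + (t : ℕ) then w ⟨m - r + (t : ℕ) - (m - r), _⟩ else _) = _
    rw [dif_pos (Nat.le_add_right _ _)]
    congr 1
    exact Fin.ext (by simp)
  have hρ'2 : ∀ j : Fin m, m - r ≤ j → Nice ρ dd j (ρ' j) := by
    intro j hj
    have h1 : ρ' j = w ⟨(j : ℕ) - (m - r), by omega⟩ := dif_pos hj
    rw [h1]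
    refine hw _ j ?_
    show (j : ℕ) = m - r + ((j : ℕ) - (m - r))
    omega
  have hρ'3 : ∀ j : Fin m, ¬ m - r ≤ j → ρ' j = ρ j := fun j hj => dif_neg hj
  have hρ'4 : ∀ j, ρ' j ∈ jacobianSyzygies f ∧ ∀ t, (ρ' j t).IsHomogeneous (dd j) := by
    intro j
    by_cases hj : m - r ≤ j
    · exact hNice j _ (hρ'2 j hj)
    · rw [hρ'3 j hj]
      exact ⟨hρmem j, hhom j⟩
  have hspan2 : Submodule.span (PolyRing r) (Set.range ρ') = jacobianSyzygies f := by
    refine le_antisymm ?_ ?_
    · rw [Submodule.span_le]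
      rintro _ ⟨j, rfl⟩
      exact (hρ'4 j).1
    · rw [← hspan, Submodule.span_le]
      have h1 : ∀ (q : ℕ) (j : Fin m), (j : ℕ) = q →
          ρ j ∈ Submodule.span (PolyRing r) (Set.range ρ') := by
        intro q
        induction q using Nat.strong_induction_on with
        | _ q ih =>
          intro j hj
          by_cases hj' : m - r ≤ j
          · obtain ⟨h, h1, _, ⟨c, hc, h3⟩, h4⟩ := hρ'2 j hj'
            have h5 : ρ' j = ∑ l, h l • ρ l := by
              funext t
              rw [Finset.sum_apply]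
              exact h4 t
            rw [← Finset.add_sum_erase _ _ (Finset.mem_univ j), h3] at h5
            have h6 : ∑ l ∈ Finset.univ.erase j, h l • ρ l ∈
                Submodule.span (PolyRing r) (Set.range ρ') := by
              refine Submodule.sum_mem _ fun l hl => ?_
              rcases lt_or_gt_of_ne (Finset.ne_of_mem_erase hl) with h7 | h7
              · exact Submodule.smul_mem _ _ (ih l (by rw [← hj]; exact h7) l rfl)
              · rw [h1 l h7, zero_smul]
                exact Submodule.zero_mem _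
            have h7 : ρ j = (C c⁻¹ : PolyRing r) • (ρ' j -
                ∑ l ∈ Finset.univ.erase j, h l • ρ l) := by
              rw [h5, add_sub_cancel_right, smul_smul, ← C_mul, inv_mul_cancel₀ hc, C_1, one_smul]
            rw [h7]
            exact Submodule.smul_mem _ _ (Submodule.sub_mem _ (Submodule.subset_span ⟨j, rfl⟩) h6)
          · rw [← hρ'3 j hj']
            exact Submodule.subset_span ⟨j, rfl⟩
      rintro _ ⟨j, rfl⟩
      exact h1 j j rfl
  refine ⟨m, ρ', ⟨⟨fun i => ⟨dd i, (hρ'4 i).2⟩, hspan2⟩, hmin⟩, e, ?_, ?_⟩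
  · intro t t' h
    have h1 : m - r + (t : ℕ) = m - r + (t' : ℕ) := congrArg Fin.val h
    exact Fin.ext (by omega)
  · have h1 : ρ' ∘ e = w := funext hρ'1
    rw [h1]
    refine tame_of_indep hd hf hf0 (fun t => ?_) hwπ hw0
    rw [← hρ'1]
    exact (hρ'4 _).1

end Pool.Agent.Results.MP_0a8f3f_ag.AlwaysTame
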